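import Mathlib
import Pool.Agent.L7h1.PX.Fin
import Pool.Agent.L7h1.PY.Fin
import Pool.Agent.L7h1.PY.Lat2
import Pool.Agent.L7h89.PY.Pig
import Pool.Agent.L7h89.PY.Ramd2
import Pool.Agent.L7h89.PY.Selg
import Pool.Agent.L7h89.PY.Uni2
import Pool.Agent.L7h30.PY.Down2

/-!
# The `Σ`-Leopoldt conjecture for almost all powers of every character of `p`-power order

`K` is a number field (in the application a CM field), `S` a nonempty set of embeddings `K → ℂ_p` which is a union of
classes of embeddings with the same absolute value, i.e. a set of places of `K` above `p` (in the application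
a `p`-ordinary CM type), `B/K` a cyclic extension, `δ` a generator of `Gal(B/K)`, `t = [B : K]` (ANY number, it may be
divisible by `p`, and `t = 1` is allowed), and the completions of `B` at the places over `S` contain no primitive
`p`-th root of unity (so `p ≠ 2`; if `p` splits completely in `K` and `[B:K] < p - 1` this is automatic).

We consider ALL abelian extensions `H/K` which contain `B` and ALL characters `κ` of `Gal(H/K)` of `p`-power order. A character
of `Gal(H/K)` is `Over B` if it is the inflation of a faithful character of `Gal(B/K)`. The ramification of `H/B` is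
measured by a number `r`: it is a bound for the sum of the exponents `m_v` of the ramification indices `p^(m_v)` of the
primes `v` of `B` outside `S` whose decomposition group in `Gal(B/K)` is trivial (for `p ∣ t`: of all primes outside
`S` and outside the primes with nontrivial decomposition group of a fixed finite set `Q`). The primes over `S` and the primes
with nontrivial decomposition group do not count, tame or wild.

**Theorem.** (1) Let `Sel(m)` be the group of the `a ∈ B^×` modulo `p^m`-th powers such that all valuations of `a` are divisible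
by `p^m`, `a` is a `p^m`-th power in the completions of `B` over `S` and `Φ_t(δ) a` is a `p^m`-th power. The
`Σ`-Leopoldt statement holds for all faithful characters of `Gal(B/K)` if and only if `#Sel(m) < p^m` for some `m`.
(2) If `#Sel(m + 1) < p^(m+1)`, then for all `H` and `κ` as above (with `Q = ∅`) the `Σ`-Leopoldt
statement holds for the characters `χ κ^i`, `χ` over `B`, except for powers `κ^i` of at most `m + r` different orders.
(3) If the `Σ`-Leopoldt statement holds for the faithful characters of `Gal(B/K)`, then for every `Q` there is a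
number `e` such that for all `H` and `κ` the exceptional powers of `κ` have at most `e + r` different orders.
Moreover (in (2), (3)): if a power of `κ` is over `B`, then the powers `κ^i` of order greater than `t` for which the
`Σ`-Leopoldt statement (for `κ^i` itself) fails have at most `e + r` different orders; and for every homomorphism `π` of
`Gal(H/K)` onto `(ℤ/p^n)^k` the proportions of the exceptions among the characters of `(ℤ/p^n)^k` of order `p^j`, summed
over `j = 1, …, n`, are at most `e + r`, for the characters `χ · (κ ∘ π)`, `χ` over `B`, and, if the image contains a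
character over `B`, for the characters `κ ∘ π` themselves (`p^j > t`).
(4) The conclusion of (3) holds unconditionally if `K` is a CM field, `S` a `p`-ordinary CM type of `K` and `B` is a CM field
whose maximal real subfield `E` is abelian over `ℚ`.

For example let `K` be a CM field, abelian over `ℚ`, in which `p ≠ 2` splits completely, `S` any CM type of `K`, and
`B = K ℚ_1`, `ℚ_1` the subfield of degree `p` of `ℚ(ζ_{p²})`. No place above `p` splits in `B`. So in every `ℤ_p^k`-extension of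
`K` which contains the cyclotomic one the conjecture holds for `100%` of the characters, and for every character `κ` of
`p`-power order of `K` (ramified at any places) it holds for all the `χ κ^i`, `χ ≠ 1` a character of `Gal(B/K)`, except for at most
`e + r` orders of `κ^i`, where only the ramification of `κ` at places not above `p` contributes to `r`.

Proof. Suppose that the statement fails for `χ_j κ^i`, with `κ^i` of the orders `p^j`, `j ∈ J`, `m = #J`; let `H/B` be cyclic, cut out
by `κ`. `Gal(H/K)` acts on `ℤ[ζ_t] ⊗ 𝓞_H^×` by the Galois action times the inverse of `χ`. The part `L` of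
`ℤ_p ⊗ ℤ[ζ_t] ⊗ 𝓞_H^×` on which all the logarithms over `S` vanish and on which `Gal(H/K)` acts (twisted) through the image of
`κ`, with generator `ρ`, contains elements with `Φ_{p^j}(ρ) = 0` for all `j ∈ J`. A filtration of this saturated lattice shows
that there are `p^m` elements of `L/p^m` fixed by `ρ`, hence by `Gal(H/K)`. Their last coordinates are units `u` with `g(u)/u`,
`g ∈ Gal(H/B)`, and `Φ_t(δ) u` in the `p^m`-th powers, which are `p^m`-th powers in the completions over `S`, and they are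
different modulo `p^m`-th powers. By Hilbert 90, `u = a z^(p^m)`, `a ∈ B^×`. The completions of `H` have no
`p`-th roots of unity, so `a` is a `p^m`-th power in the completions of `B` over `S`; its valuations are divisible by `p^m` at
the unramified primes and, since `Φ_t(δ) a` is a `p^m`-th power, at the primes with nontrivial decomposition group
(up to `p^c`, `c` the valuation of `t`), and by `p^(m - m_v)` at the other primes. So `p^r #Sel(m) ≥ p^m`, and the groups
`Sel(m)` are bounded by the finiteness of the class number, Dirichlet's unit theorem and the hypothesis for `B`. (4) is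
the theorem of Brumer for the abelian field `E`.
-/

set_option autoImplicit false

namespace Pool.Agent.Results.MP_fc6b1e_nt.AllAbelianExtensions

open NumberField Module IsDedekindDomain Polynomial Pool.Agent.W289.SL

section defs

variable (p : ℕ) [Fact p.Prime] {K B : Type} [Field K] [Field B] [NumberField B] [Algebra K B]

/-- The base data: `B/K` is cyclic, generated by `δ`; `S` is a nonempty union of classes of embeddings with the same
absolute value; the completions of `B` at the places over `S` (the closures of `τ(B)` in `ℂ_p`) contain no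
primitive `p`-th roots of unity. -/
structure BaseData (S : Set (K →+* ℂ_[p])) (δ : B ≃ₐ[K] B) : Prop where
  galois : IsGalois K B
  gen : ∀ g : B ≃ₐ[K] B, g ∈ Subgroup.zpowers δ
  nonempty : S.Nonempty
  places : ∀ τ τ' : K →+* ℂ_[p], (∀ y, ‖τ' y‖ = ‖τ y‖) → τ ∈ S → τ' ∈ S
  noMu : ∀ τ : B →+* ℂ_[p], τ.comp (algebraMap K B) ∈ S →
    ∀ ζ ∈ τ.fieldRange.topologicalClosure, ζ ^ p = 1 → ζ = 1

/-- The `S`-Leopoldt statement holds for all faithful characters of `Gal(B/K)`. -/
def FaithfulHold (K B : Type) [Field K] [Field B] [NumberField B] [Algebra K B]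
    (S : Set (K →+* ℂ_[p])) : Prop :=
  ∀ χ : (B ≃ₐ[K] B) →* ℂ_[p]ˣ, Function.Injective χ → SigmaLeopoldt p K B S χ

/-- The action of `δ` on `B^×`, written additively. -/
noncomputable def mulAct (δ : B ≃ₐ[K] B) : Module.End ℤ (Additive Bˣ) :=
  (MonoidHom.toAdditive (Units.map (δ : B →* B))).toIntLinearMap

/-- The class of `a` lies in `Sel(m)`: all valuations of `a` are divisible by `p^m`, `a` is a `p^m`-th power in the
completions of `B` over `S`, and `Φ_t(δ) a` is a `p^m`-th power, `t` the order of `δ`, `Φ_t` the `t`-th cyclotomic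
polynomial. -/
def InSel (S : Set (K →+* ℂ_[p])) (δ : B ≃ₐ[K] B) (m : ℕ) (a : Bˣ) : Prop :=
  (∀ v : HeightOneSpectrum (𝓞 B), ∃ b : B, v.valuation B (a : B) = v.valuation B b ^ p ^ m) ∧
    (∀ τ : B →+* ℂ_[p], τ.comp (algebraMap K B) ∈ S →
      ∃ b ∈ τ.fieldRange.topologicalClosure, b ^ p ^ m = τ (a : B)) ∧
    ∃ c : Bˣ, aeval (mulAct δ) (cyclotomic (orderOf δ) ℤ) (Additive.ofMul a) =
      p ^ m • Additive.ofMul c

/-- `Sel(m)` has less than `p^m` elements: so has every set of elements of `Sel(m)` which are pairwise incongruent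
modulo `p^m`-th powers. -/
def SelSmall (S : Set (K →+* ℂ_[p])) (δ : B ≃ₐ[K] B) (m : ℕ) : Prop :=
  ∀ Z : Finset Bˣ, (∀ a ∈ Z, InSel p S δ m a) →
    (∀ a ∈ Z, ∀ a' ∈ Z, a ≠ a' → ¬ ∃ c : Bˣ, a = a' * c ^ p ^ m) → Z.card < p ^ m

/-- The ramification index of the prime `w` of `H` over `B` is at most `N`. -/
def IndexLE (B : Type) {H : Type} [Field B] [NumberField B] [Field H] [NumberField H] [Algebra B H]
    (w : HeightOneSpectrum (𝓞 H)) (N : ℕ) : Prop :=
  ¬ (w.asIdeal.comap (algebraMap (𝓞 B) (𝓞 H))).map (algebraMap (𝓞 B) (𝓞 H)) ≤ w.asIdeal ^ (N + 1)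

/-- The primes `w` whose ramification does not count: `w` lies over `S`, or over a prime `v` of `B` (in `Q` if `p ∣ t`) with
nontrivial decomposition group in `Gal(B/K)`, i.e. stable under some `δ^m`, `0 < m < t`. -/
def MayRamify {H : Type} [Field H] [NumberField H] [Algebra K H] [Algebra B H]
    (S : Set (K →+* ℂ_[p])) (δ : B ≃ₐ[K] B) (Q : Finset (HeightOneSpectrum (𝓞 B)))
    (w : HeightOneSpectrum (𝓞 H)) : Prop :=
  (∃ σ : H →+* ℂ_[p], σ.comp (algebraMap K H) ∈ S ∧
    ∀ x : 𝓞 H, x ∈ w.asIdeal ↔ ‖σ (x : H)‖ < 1) ∨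
  ∃ v : HeightOneSpectrum (𝓞 B), v.asIdeal = w.asIdeal.comap (algebraMap (𝓞 B) (𝓞 H)) ∧
    (v ∈ Q ∨ ¬ p ∣ orderOf δ) ∧ ∃ m : ℕ, 0 < m ∧ m < orderOf δ ∧
      ∀ x y : 𝓞 B, (y : B) = (δ ^ m) (x : B) → (x ∈ v.asIdeal ↔ y ∈ v.asIdeal)

/-- `H/K` is an abelian extension containing `B`, `δH` is a lift of `δ`, and the ramification of `H/B` is at most `r`: for a finite
set `R` of primes of `B` and numbers `m v` with sum at most `r`, the primes of `H` over `v ∈ R` have ramification index at
most `p^(m v)`, and all other primes are unramified over `B` or do not count. -/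
def Allowed {H : Type} [Field H] [NumberField H] [Algebra K H] [Algebra B H]
    (S : Set (K →+* ℂ_[p])) (δ : B ≃ₐ[K] B) (Q : Finset (HeightOneSpectrum (𝓞 B))) (r : ℕ)
    (δH : H ≃ₐ[K] H) : Prop :=
  IsGalois K H ∧ (∀ g h : H ≃ₐ[K] H, g * h = h * g) ∧
    (∀ b, δH (algebraMap B H b) = algebraMap B H (δ b)) ∧
    ∃ (R : Finset (HeightOneSpectrum (𝓞 B))) (m : HeightOneSpectrum (𝓞 B) → ℕ), ∑ v ∈ R, m v ≤ r ∧
      ∀ w : HeightOneSpectrum (𝓞 H), MayRamify p S δ Q w ∨ IndexLE B w 1 ∨
        ∃ v ∈ R, v.asIdeal = w.asIdeal.comap (algebraMap (𝓞 B) (𝓞 H)) ∧ IndexLE B w (p ^ m v)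

/-- `χ` is over `B`: it is the inflation of a faithful character of `Gal(B/K)`, i.e. trivial on `Gal(H/B)` and a primitive
`t`-th root of unity on `δH`. -/
def Over (B : Type) {H : Type} [Field B] [Algebra K B] [Field H] [Algebra K H] [Algebra B H]
    [IsScalarTower K B H] (δH : H ≃ₐ[K] H) (t : ℕ) (χ : (H ≃ₐ[K] H) →* ℂ_[p]ˣ) : Prop :=
  IsPrimitiveRoot (χ δH) t ∧ ∀ g : H ≃ₐ[B] H, χ (g.restrictScalars K) = 1

/-- The `S`-Leopoldt statement is false for `χ κ`, for some character `χ` over `B`. -/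
def Fails (B : Type) {H : Type} [Field B] [Algebra K B] [Field H] [NumberField H] [Algebra K H]
    [Algebra B H] [IsScalarTower K B H] (S : Set (K →+* ℂ_[p])) (δH : H ≃ₐ[K] H) (t : ℕ)
    (κ : (H ≃ₐ[K] H) →* ℂ_[p]ˣ) : Prop :=
  ∃ χ : (H ≃ₐ[K] H) →* ℂ_[p]ˣ, Over p B δH t χ ∧ ¬ SigmaLeopoldt p K H S (χ * κ)

/-- The exponents `j` such that the `S`-Leopoldt statement fails for `χ κ^i`, for some `i` and some `χ` over `B`, `κ^i` of
order `p^j`. -/
def ExcOrders (B : Type) {H : Type} [Field B] [Algebra K B] [Field H] [NumberField H] [Algebra K H]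
    [Algebra B H] [IsScalarTower K B H] (S : Set (K →+* ℂ_[p])) (δH : H ≃ₐ[K] H) (t : ℕ)
    (κ : (H ≃ₐ[K] H) →* ℂ_[p]ˣ) : Set ℕ :=
  {j : ℕ | ∃ i : ℕ, orderOf (κ ^ i) = p ^ j ∧ Fails p B S δH t (κ ^ i)}

/-- The exponents `j` with `p^j > t` such that the `S`-Leopoldt statement fails for some power of `κ` of order `p^j`. -/
def PlainOrders {H : Type} [Field H] [NumberField H] [Algebra K H] (S : Set (K →+* ℂ_[p])) (t : ℕ)
    (κ : (H ≃ₐ[K] H) →* ℂ_[p]ˣ) : Set ℕ :=
  {j : ℕ | t < p ^ j ∧ ∃ i : ℕ, orderOf (κ ^ i) = p ^ j ∧ ¬ SigmaLeopoldt p K H S (κ ^ i)}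

/-- The group `(ℤ/p^n)^k`. -/
abbrev PowerGroup (p n k : ℕ) : Type := Fin k → Multiplicative (ZMod (p ^ n))

/-- The proportion of `F` among the characters of `(ℤ/p^n)^k` of order `p^j`. -/
noncomputable def proportion (n k j : ℕ) (F : Set (PowerGroup p n k →* ℂ_[p]ˣ)) : ℝ :=
  ({κ : PowerGroup p n k →* ℂ_[p]ˣ | κ ∈ F ∧ orderOf κ = p ^ j}.ncard : ℝ) /
    ({κ : PowerGroup p n k →* ℂ_[p]ˣ | orderOf κ = p ^ j}.ncard : ℝ)

/-- The powers `κ^i` for which the `S`-Leopoldt statement fails for some `χ κ^i`, `χ` over `B`, have at most `e`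
different orders; if a power of `κ` is over `B`, so have the powers `κ^i` of order `> t` for which the statement itself
fails. -/
def PowersBound (B : Type) {H : Type} [Field B] [Algebra K B] [Field H] [NumberField H] [Algebra K H]
    [Algebra B H] [IsScalarTower K B H] (S : Set (K →+* ℂ_[p])) (δH : H ≃ₐ[K] H) (t e : ℕ)
    (κ : (H ≃ₐ[K] H) →* ℂ_[p]ˣ) : Prop :=
  (ExcOrders p B S δH t κ).ncard ≤ e ∧
    ((∃ i : ℕ, Over p B δH t (κ ^ i)) → (PlainOrders p S t κ).ncard ≤ e)

/-- The sum over `j = 1, …, n` of the proportions of the exceptions among the characters of `(ℤ/p^n)^k` of order `p^j` is at most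
`e`, an exception being a `κ` such that the `S`-Leopoldt statement fails for `χ (κ ∘ π)`, for some `χ` over `B`; if some
`l ∘ π` is over `B`, the same is true for the exceptions to the statement for `κ ∘ π` itself, `p^j > t`. -/
def AverageBound (B : Type) {H : Type} [Field B] [Algebra K B] [Field H] [NumberField H] [Algebra K H]
    [Algebra B H] [IsScalarTower K B H] (S : Set (K →+* ℂ_[p])) (δH : H ≃ₐ[K] H) (t e n k : ℕ)
    (π : (H ≃ₐ[K] H) →* PowerGroup p n k) : Prop :=
  ∑ j ∈ Finset.Icc 1 n, proportion p n k j {κ | Fails p B S δH t (κ.comp π)} ≤ e ∧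
    ((∃ l : PowerGroup p n k →* ℂ_[p]ˣ, Over p B δH t (l.comp π)) →
      ∑ j ∈ (Finset.Icc 1 n).filter (fun j => t < p ^ j),
        proportion p n k j {κ | ¬ SigmaLeopoldt p K H S (κ.comp π)} ≤ e)

/-- **At most `e + r` exceptional orders.** For all abelian `H/K` containing `B`, with a lift `δH` of `δ` and ramification at most
`r` over `B`: `PowersBound` with `e + r` holds for every character `κ` of `Gal(H/K)` of `p`-power order, and `AverageBound`
with `e + r` for every homomorphism `π` of `Gal(H/K)` onto some `(ℤ/p^n)^k`. -/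
def AtMost (K B : Type) [Field K] [Field B] [NumberField B] [Algebra K B]
    (S : Set (K →+* ℂ_[p])) (δ : B ≃ₐ[K] B) (Q : Finset (HeightOneSpectrum (𝓞 B))) (e : ℕ) : Prop :=
  ∀ (H : Type) [Field H] [NumberField H] [Algebra K H] [Algebra B H] [IsScalarTower K B H]
    (δH : H ≃ₐ[K] H) (r : ℕ), Allowed p S δ Q r δH →
    (∀ (κ : (H ≃ₐ[K] H) →* ℂ_[p]ˣ) (n : ℕ), orderOf κ = p ^ n →
      PowersBound p B S δH (orderOf δ) (e + r) κ) ∧
    ∀ (n k : ℕ) (π : (H ≃ₐ[K] H) →* PowerGroup p n k), Function.Surjective π →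
      AverageBound p B S δH (orderOf δ) (e + r) n k π

end defs

section proofs

open Pool.Agent.L7h1.PX (SB cl Okp Stb Ind Unr)
open Pool.Agent.L7h1.PY (Exc2 Fails2 Okr prop)

variable {p : ℕ} [hp : Fact p.Prime] {K B : Type} [Field K] [NumberField K] [Field B] [NumberField B]
  [Algebra K B]

lemma faithful_iff (S : Set (K →+* ℂ_[p])) (δ : B ≃ₐ[K] B) (hgen : ∀ g : B ≃ₐ[K] B, g ∈ Subgroup.zpowers δ) :
    FaithfulHold p K B S ↔
      ∀ χ : (B ≃ₐ[K] B) →* ℂ_[p]ˣ, IsPrimitiveRoot (χ δ) (orderOf δ) → SigmaLeopoldt p K B S χ := by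
  constructor
  · intro h χ hχ
    refine h χ ?_
    rw [injective_iff_map_eq_one]
    intro g hg
    obtain ⟨i, rfl⟩ := hgen g
    simp only [map_zpow] at hg
    have h1 := (hχ.zpow_eq_one_iff_dvd i).1 hg
    exact orderOf_dvd_iff_zpow_eq_one.1 h1
  · intro h χ hχ
    refine h χ ?_
    rw [← orderOf_injective χ hχ δ]
    exact IsPrimitiveRoot.orderOf _

lemma fails_eq {H : Type} [Field H] [NumberField H] [Algebra K H] [Algebra B H] [IsScalarTower K B H]
    (S : Set (K →+* ℂ_[p])) (δH : H ≃ₐ[K] H) (t : ℕ) :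
    Fails p B S δH t = Fails2 (B := B) p S δH t := by
  funext κ
  apply propext
  constructor
  · rintro ⟨χ, ⟨h1, h2⟩, h3⟩
    exact ⟨χ, h1, h2, h3⟩
  · rintro ⟨χ, h1, h2, h3⟩
    exact ⟨χ, ⟨h1, h2⟩, h3⟩

lemma proportion_eq (n k j : ℕ) (F : Set (PowerGroup p n k →* ℂ_[p]ˣ)) :
    proportion p n k j F = prop p n k j F := rfl

lemma atMost_of [IsGalois K B] (S : Set (K →+* ℂ_[p])) (δ : B ≃ₐ[K] B)
    (hgen : ∀ g : B ≃ₐ[K] B, g ∈ Subgroup.zpowers δ) (Q Q' : Finset (HeightOneSpectrum (𝓞 B)))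
    (hQ' : ∀ v, v ∈ Q' ↔ v ∈ Q ∧ ∃ m : ℕ, 0 < m ∧ m < orderOf δ ∧ Stb (δ : B ≃+* B) m v)
    (e : ℕ)
    (h : ∀ (R : Finset (HeightOneSpectrum (𝓞 B))) (m : HeightOneSpectrum (𝓞 B) → ℕ),
      (∀ v ∈ R, v ∉ Q') → ∀ (H : Type) [Field H] [NumberField H] [Algebra K H] [Algebra B H]
      [IsScalarTower K B H] [IsGalois K H], (∀ g h : H ≃ₐ[K] H, g * h = h * g) → ∀ δH : H ≃ₐ[K] H,
      (∀ b, δH (algebraMap B H b) = algebraMap B H (δ b)) →
      (∀ w : HeightOneSpectrum (𝓞 H), Okr p (SB B S) (δ : B ≃+* B) (orderOf δ) Q' R m w) →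
      ∀ (κ : (H ≃ₐ[K] H) →* ℂ_[p]ˣ) (n : ℕ), orderOf κ = p ^ n →
      (Exc2 (B := B) p S δH (orderOf δ) κ).ncard ≤ e + ∑ v ∈ R, m v) : AtMost p K B S δ Q e := by
  classical
  intro H _ _ _ _ _ δH r hall
  obtain ⟨hgal, hab, hδ, R, m, hmr, hw⟩ := hall
  have : IsGalois B H := IsGalois.tower_top_of_isGalois K B H
  have hstb : ∀ (v : HeightOneSpectrum (𝓞 B)) (i : ℕ),
      (∀ x y : 𝓞 B, (y : B) = (δ ^ i) (x : B) → (x ∈ v.asIdeal ↔ y ∈ v.asIdeal)) →
      Stb (δ : B ≃+* B) i v := by
    intro v i hst x y hxy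
    rw [Pool.Agent.L7h1.PX.iter_coe] at hxy
    exact hst x y hxy
  have hok : ∀ w : HeightOneSpectrum (𝓞 H),
      Okr p (SB B S) (δ : B ≃+* B) (orderOf δ) Q' (R.filter fun v => v ∉ Q') m w := by
    intro w
    rcases hw w with (⟨σ, hσ, hσw⟩ | ⟨v, hv, hvQ, i, hi1, hi2, hst⟩) | h2 | ⟨v, hvR, hv, hvm⟩
    · refine Or.inl (Or.inl ⟨σ, ?_, hσw⟩)
      change (σ.comp (algebraMap B H)).comp (algebraMap K B) ∈ S
      have h1 : (σ.comp (algebraMap B H)).comp (algebraMap K B) = σ.comp (algebraMap K H) := by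
        ext k
        change σ (algebraMap B H (algebraMap K B k)) = σ (algebraMap K H k)
        rw [← IsScalarTower.algebraMap_apply K B H]
      rw [h1]
      exact hσ
    · refine Or.inl (Or.inr (Or.inr ⟨v, hv, ?_, i, hi1, hi2, hstb v i hst⟩))
      rcases hvQ with h1 | h1
      · exact Or.inl ((hQ' v).2 ⟨h1, i, hi1, hi2, hstb v i hst⟩)
      · exact Or.inr h1
    · exact Or.inl (Or.inr (Or.inl h2))
    · by_cases hvQ : v ∈ Q'
      · obtain ⟨i, hi1, hi2, hst⟩ := ((hQ' v).1 hvQ).2
        exact Or.inl (Or.inr (Or.inr ⟨v, hv, Or.inl hvQ, i, hi1, hi2, hst⟩))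
      · exact Or.inr ⟨v, Finset.mem_filter.2 ⟨hvR, hvQ⟩, hv, hvm⟩
  have hsum : ∑ v ∈ R.filter (fun v => v ∉ Q'), m v ≤ r :=
    (Finset.sum_le_sum_of_subset (Finset.filter_subset _ _)).trans hmr
  have h1 : ∀ (κ : (H ≃ₐ[K] H) →* ℂ_[p]ˣ) (n : ℕ), orderOf κ = p ^ n →
      (Exc2 (B := B) p S δH (orderOf δ) κ).ncard ≤ e + r := fun κ n hn =>
    (h _ m (fun v hv => (Finset.mem_filter.1 hv).2) H hab δH hδ hok κ n hn).trans (by omega)
  have hE : ∀ κ, ExcOrders p B S δH (orderOf δ) κ = Exc2 (B := B) p S δH (orderOf δ) κ := by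
    intro κ
    unfold ExcOrders Exc2
    rw [fails_eq]
  refine ⟨fun κ n hn => ⟨?_, fun hi => ?_⟩, fun n k π hπ => ?_⟩
  · rw [hE]
    exact h1 κ n hn
  · refine le_trans (Set.ncard_le_ncard (Pool.Agent.L7h1.PY.plain_subset S δ hgen δH hδ κ n hn hi) ?_)
      (h1 κ n hn)
    refine (Set.finite_le_nat n).subset ?_
    rintro j ⟨i, hi', hf⟩
    have h2 : orderOf (κ ^ i) ∣ orderOf κ := orderOf_pow_dvd i
    rw [hi', hn] at h2
    exact (Nat.pow_dvd_pow_iff_le_right hp.out.one_lt).1 h2
  · have h2 := Pool.Agent.L7h1.PY.avg (B := B) S δH (orderOf δ) (e + r) h1 n k π hπ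
    unfold AverageBound
    simp only [proportion_eq, fails_eq]
    exact ⟨h2, fun hl => Pool.Agent.L7h1.PY.avg_plain S δ hgen δH hδ (e + r) n k π hπ h2 hl⟩

end proofs

open Pool.Agent.L7h1.PX in
open Pool.Agent.L7h1.PY in
/-- The theorem: (1) a finite criterion for the faithful characters of `Gal(B/K)`; (2) if `#Sel(m + 1) < p^(m + 1)`,
there are at most `m + r` exceptional orders; (3) if the faithful characters are not exceptional, the number of exceptional
orders is at most `e + r`; (4) unconditionally for `p`-ordinary CM types and CM fields `B` with abelian maximal real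
subfield. -/
theorem result :
    (∀ (p : ℕ) [Fact p.Prime] (K B : Type) [Field K] [NumberField K] [Field B] [NumberField B]
      [Algebra K B] (S : Set (K →+* ℂ_[p])) (δ : B ≃ₐ[K] B), BaseData p S δ →
      (FaithfulHold p K B S ↔ ∃ m : ℕ, SelSmall p S δ m) ∧
      (∀ m : ℕ, SelSmall p S δ (m + 1) → AtMost p K B S δ ∅ m) ∧
      (FaithfulHold p K B S →
        ∀ Q : Finset (HeightOneSpectrum (𝓞 B)), ∃ e : ℕ, AtMost p K B S δ Q e)) ∧
    ∀ (p : ℕ) [Fact p.Prime] (F K E B : Type) [Field F] [NumberField F] [IsTotallyReal F] [Field K]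
      [NumberField K] [IsTotallyComplex K] [Algebra F K] [Field E] [NumberField E] [IsTotallyReal E]
      [IsGalois ℚ E] [Field B] [NumberField B] [IsTotallyComplex B] [Algebra E B] [Algebra K B]
      (S : Set (K →+* ℂ_[p])) (δ : B ≃ₐ[K] B), finrank F K = 2 → finrank E B = 2 →
      (∀ g h : E ≃ₐ[ℚ] E, g * h = h * g) → IsCMType p F K S → BaseData p S δ →
      ∀ Q : Finset (HeightOneSpectrum (𝓞 B)), ∃ e : ℕ, AtMost p K B S δ Q e := by
  classical
  have part3 : ∀ (p : ℕ) [Fact p.Prime] (K B : Type) [Field K] [NumberField K] [Field B] [NumberField B]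
      [Algebra K B] (S : Set (K →+* ℂ_[p])) (δ : B ≃ₐ[K] B), BaseData p S δ → FaithfulHold p K B S →
      ∀ Q : Finset (HeightOneSpectrum (𝓞 B)), ∃ e : ℕ, AtMost p K B S δ Q e := by
    intro p _ K B _ _ _ _ _ S δ hD hF Q
    have := hD.galois
    obtain ⟨θ⟩ := Pool.Agent.W254.PA.exists_theta p
    obtain ⟨e, he⟩ := Pool.Agent.L7h1.PY.bound
      (Pool.Agent.L7h89.PY.s_UNI2 Pool.Agent.L7h1.PY.s_LAT2) Pool.Agent.L7h30.PY.s_DOWN2'
      s_FINQ' Pool.Agent.L7h30.PX.s_DES Pool.Agent.L7h89.PY.s_PIG Pool.Agent.L7h97.PX.s_UNQ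
      Pool.Agent.L7h97.PX.s_DSC Pool.Agent.L7h89.PY.s_RAMD2 θ S hD.nonempty hD.places hD.noMu δ hD.gen
      (fun L hL => base_of S δ hD.gen ((faithful_iff S δ hD.gen).1 hF) hL)
      (Q.filter fun v => ∃ m : ℕ, 0 < m ∧ m < orderOf δ ∧ Stb (δ : B ≃+* B) m v)
    exact ⟨e, atMost_of S δ hD.gen Q _ (fun v => Finset.mem_filter) e he⟩
  refine ⟨fun p _ K B _ _ _ _ _ S δ hD => ⟨?_, ?_, part3 p K B S δ hD⟩, ?_⟩
  · have := hD.galois
    rw [faithful_iff S δ hD.gen]
    exact base_iff S hD.nonempty hD.places hD.noMu δ hD.gen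
  · intro m hm
    have := hD.galois
    obtain ⟨θ⟩ := Pool.Agent.W254.PA.exists_theta p
    refine atMost_of S δ hD.gen ∅ ∅ (fun v => by simp) m
      fun R m' _ H _ _ _ _ _ _ hab δH hδ hok κ n hn => ?_
    have h1 := Pool.Agent.L7h1.PY.bound_sel
      (Pool.Agent.L7h89.PY.s_UNI2 Pool.Agent.L7h1.PY.s_LAT2) Pool.Agent.L7h30.PY.s_DOWN2'
      Pool.Agent.L7h30.PX.s_DES Pool.Agent.L7h89.PY.s_PIG Pool.Agent.L7h89.PY.s_SELG
      Pool.Agent.L7h97.PX.s_UNQ Pool.Agent.L7h97.PX.s_DSC Pool.Agent.L7h89.PY.s_RAMD2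
      θ S hD.nonempty hD.places hD.noMu δ hD.gen
      (fun L hL => base_sel Pool.Agent.L7h97.PX.s_RAT Pool.Agent.L7h30.PX.s_TINY B hL (SB B S)
        (SB_nonempty S hD.nonempty) (SB_closed S hD.places) hD.noMu (δ : B ≃+* B) (orderOf δ) (m + 1) hm)
      (m + 1) (Nat.succ_pos m) hm R m' H hab δH hδ hok κ n hn
    omega
  · intro p _ F K E B _ _ _ _ _ _ _ _ _ _ _ _ _ _ _ _ S δ hK hB hab hS hD Q
    exact part3 p K B S δ hD (fun χ _ => cm_base hK hB hab S hS χ) Q

end Pool.Agent.Results.MP_fc6b1e_nt.AllAbelianExtensions
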