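import Pool.Agent.L7h10.SA.Main

set_option autoImplicit false

/-!
# The `p`-adic regulator over almost all CM types
-/

namespace Pool.Agent.Results.MP_fc6b1e_nt.AlmostAllCMTypes

open NumberField Module Pool.Agent.W289.SL
open Pool.Agent.L7h10.SA

/-- Let `K/F` be a quadratic extension of number fields with `K` totally complex (for example a CM
field over its totally real subfield), `d = [F:ℚ]`, `H/K` a finite Galois extension and `χ` a character of
`Gal(H/K)` with values in `ℂ_p` which separates the embeddings of `K` (Mackey's condition for the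
irreducibility of the representation of `Gal(ℚ̄/ℚ)` induced by `χ`). The `χ`-part of `ℂ_p ⊗ 𝓞_H^×` has
dimension `d`, there are `2^d` CM types `S`, and the ranks `r_S` of the regulator maps `log_{S,p}` on
the `χ`-part satisfy (structure `Ranks`)
* `best`: `r_S ≥ 2 d / 3` for some CM type `S`;
* `expmean`: `∑_S (d/(d+3))^(r_S) (1 - 3 r_S/(2 d)) ≤ 2^d 2^(-9 d/(d+3))`;
* `mean`: the mean of the `r_S` is larger than `0.657 d - 1/2`;
* `almost`: for `ε ≥ 0` at most `2^d exp(-2 ε² d)` CM types have `r_S ≤ (0.657 - ε) d - 1/2`.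
The `Σ`-Leopoldt statement for `S` says `r_S = d`. -/
theorem result (p : ℕ) [Fact p.Prime] (F K H : Type) [Field F] [NumberField F]
    [Field K] [NumberField K] [IsTotallyComplex K] [Algebra F K] (hFK : finrank F K = 2)
    [Field H] [NumberField H] [Algebra K H] [IsGalois K H]
    (χ : (H ≃ₐ[K] H) →* ℂ_[p]ˣ) (hsep : Separating χ)
    (L : ℂ_[p] → ℂ_[p]) (hL : IsIwasawaLog p L) :
    chiDim χ = finrank ℚ F ∧
      Ranks (finrank ℚ F) {S | IsCMType p F K S} (rankLog χ hL) :=
  have : FiniteDimensional K H := FiniteDimensional.right ℚ K H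
  Pool.Agent.L7h10.SA.main χ hL F hFK hsep

end Pool.Agent.Results.MP_fc6b1e_nt.AlmostAllCMTypes
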