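import Mathlib
import Pool.Agent.L7h93.SR.Main
import Pool.Agent.L7h10.SA.Dim
import Pool.Agent.W332.SL7.Stmt

/-!
# At least half of the `Σ`-Leopoldt conjecture: the rank of the regulator

`F` is a totally real field of degree `d`, `K/F` a totally complex quadratic extension, `p` ANY prime, `S` ANY CM type
of `K` with values in `ℂ_p` (ordinary or not), `H/K` a finite Galois extension and `χ` ANY character of `Gal(H/K)` with
values in `ℂ_p^×`. The `χ`-part of `ℂ_p ⊗ 𝓞_H^×` has dimension `d` if `χ ≠ 1` and `d - 1` if `χ = 1`, and the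
`Σ`-Leopoldt conjecture says that the regulator map `x ↦ (log_p σ(x))_σ`, where `σ` runs through the embeddings
`H → ℂ_p` over `S`, is injective on it, i.e. that its rank is `d` (resp. `d - 1`).

**Theorem.** The kernel of the regulator map on the `χ`-part has at most HALF the dimension of the `χ`-part: at most
`d / 2` if `χ ≠ 1`, and at most `(d - 1) / 2` if `χ = 1`. Equivalently the rank of the regulator is at least half of the
conjectured one.

For Leopoldt's conjecture (all embeddings, no character) this is the theorem of Waldschmidt (1981). There is no condition on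
`p` (it may ramify or be inert), on `S`, on `χ` (of any order, not necessarily separating the elements of `S`), and
`H/K` is any finite Galois extension. Before, something was known for `d = 1`, `d = 2` and for special families of
fields.

Proof. The `χ`-part `X`, of dimension `l`, has a basis `b_j` whose coordinates are algebraic numbers. By Dirichlet's
theorem and complex conjugation the ARCHIMEDEAN logarithms `log |θ σ(x)|`, `σ` over `S`, separate the points of `X`
(`θ : ℂ_p → ℂ` an isomorphism); hence for some `σ_1, …, σ_l` over `S` the matrix `Λ` of the archimedean logarithms of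
the `b_j` is invertible. Let `M` be the matrix of the `p`-adic logarithms `log_p σ_i(b_j)`; its rank is at most the
rank of the regulator. If `c M e = 0` for vectors `c`, `e` of algebraic numbers, then `∑ c_i e_j σ_i(b_j) = 0` by the
theorem of Brumer (`p`-adic Baker theorem, library `Pool.Agent.Helper864_WL`), so `c Λ e = 0` as well. So if there are
linearly independent systems of `n₁` such vectors `c` and `n₂` such vectors `e` with all products `c M e = 0`, then
`n₁ + n₂ ≤ l`. For matrices of `p`-adic logarithms with algebraic coefficients with this property the method of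
Waldschmidt (an auxiliary function on the subgroup, zero estimates, in the form of library `Pool.Agent.Helper864_WL`, which
is for matrices with independent entries, extended here to matrices with zero blocks of bounded size,
`Pool.Agent.L7h93.SR.Rank`) gives `rank M ≥ l l / (l + l) = l / 2`.
-/

set_option autoImplicit false

namespace Pool.Agent.Results.MP_fc6b1e_nt.HalfRank

open NumberField Module Pool.Agent.W289.SL
open Pool.Agent.W332.SL7 (Indep InKernel)

section

variable {p : ℕ} [Fact p.Prime] {H : Type} [Field H] [NumberField H]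

/-- `x` lies in the `χ`-part of `ℂ_p ⊗ 𝓞_H^×` -/
def InPart {K : Type} [Field K] [Algebra K H] (χ : (H ≃ₐ[K] H) →* ℂ_[p]ˣ) (x : UM p H) : Prop :=
  ∀ τ : H ≃ₐ[K] H, actLin p (τ : H →+* H) x = ((χ τ : ℂ_[p]ˣ) : ℂ_[p]) • x

/-- The maximal number of linearly independent vectors with the property `P` is `n`. -/
def DimIs (P : UM p H → Prop) (n : ℕ) : Prop :=
  (∃ x : Fin n → UM p H, Indep x ∧ ∀ i, P (x i)) ∧
    ∀ (r : ℕ) (x : Fin r → UM p H), Indep x → (∀ i, P (x i)) → r ≤ n

/-- The maximal number of linearly independent vectors with the property `P` is at most `n`. -/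
def DimLe (P : UM p H → Prop) (n : ℕ) : Prop :=
  ∀ (r : ℕ) (x : Fin r → UM p H), Indep x → (∀ i, P (x i)) → r ≤ n

end

section

variable {p : ℕ} [Fact p.Prime] {H : Type} [Field H] [NumberField H]

lemma le_of_mem (X : Submodule ℂ_[p] (UM p H)) (r : ℕ) (x : Fin r → UM p H) (hx : Indep x)
    (hX : ∀ i, x i ∈ X) : r ≤ finrank ℂ_[p] X := by
  have h1 : LinearIndependent ℂ_[p] (fun i => (⟨x i, hX i⟩ : X)) := by
    apply LinearIndependent.of_comp X.subtype
    exact hx
  have h2 := h1.fintype_card_le_finrank
  rwa [Fintype.card_fin] at h2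

lemma dimIs_of (X : Submodule ℂ_[p] (UM p H)) (n : ℕ) (h : finrank ℂ_[p] X = n) :
    DimIs (fun x => x ∈ X) n := by
  refine ⟨?_, fun r x hx hX => h ▸ le_of_mem X r x hx hX⟩
  have b := Module.finBasisOfFinrankEq ℂ_[p] X h
  exact ⟨fun i => (b i : UM p H), b.linearIndependent.map' X.subtype (Submodule.ker_subtype X),
    fun i => (b i).2⟩

end

open scoped Classical in
/-- **Theorem.** Let `F` be totally real, `K/F` totally complex quadratic, `H/K` finite Galois, `p` a prime, `χ` a
character of `Gal(H/K)` and `S` a CM type of `K` with values in `ℂ_p`. Put `l = [F : ℚ]` if `χ ≠ 1` and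
`l = [F : ℚ] - 1` if `χ = 1`. Then the `χ`-part of `ℂ_p ⊗ 𝓞_H^×` has dimension `l`, and the kernel of the regulator map
`log_{S,p}` on it has dimension at most `l / 2`. -/
theorem result (p : ℕ) [Fact p.Prime] (F K H : Type) [Field F] [NumberField F] [IsTotallyReal F]
    [Field K] [NumberField K] [IsTotallyComplex K] [Algebra F K] (hFK : finrank F K = 2)
    [Field H] [NumberField H] [Algebra K H] [IsGalois K H] (χ : (H ≃ₐ[K] H) →* ℂ_[p]ˣ)
    (S : Set (K →+* ℂ_[p])) (hS : IsCMType p F K S) :
    ∃ l : ℕ, l + (if χ = 1 then 1 else 0) = finrank ℚ F ∧ DimIs (InPart χ) l ∧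
      ∀ (L : ℂ_[p] → ℂ_[p]) (hL : IsIwasawaLog p L), DimLe (InKernel S χ hL) (l / 2) := by
  have : FiniteDimensional K H := FiniteDimensional.right ℚ K H
  have h0 : finrank ℚ K = 2 * finrank ℚ F := by
    rw [← finrank_mul_finrank ℚ F K, hFK, mul_comm]
  have h1 : finrank ℂ_[p] (Pool.Agent.L7h1.SR.chiPart p K H χ) + (if χ = 1 then 1 else 0) =
      finrank ℚ F := by
    have h2 : 2 * (finrank ℂ_[p] (Pool.Agent.L7h1.SR.chiPart p K H χ) + if χ = 1 then 1 else 0) =
        finrank ℚ K := by
      by_cases h : χ = 1
      · subst h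
        rw [if_pos rfl]
        exact Pool.Agent.L7h10.SA.dim_one
      · rw [if_neg h, add_zero]
        exact Pool.Agent.L7h10.SA.dim_ne h
    omega
  refine ⟨_, h1, dimIs_of _ _ rfl, ?_⟩
  intro L hL r x hx hker
  let f := (Pool.Agent.L7h93.SR.reg (H := H) S hL).domRestrict
    (Pool.Agent.L7h1.SR.chiPart p K H χ)
  have h2 := Pool.Agent.L7h93.SR.half_rank (H := H) hFK χ S hS hL
  have h3 := LinearMap.finrank_range_add_finrank_ker f
  have h4 : r ≤ finrank ℂ_[p] (LinearMap.ker f) := by
    have h5 : LinearIndependent ℂ_[p] (fun i => (⟨⟨x i, (hker i).1⟩, by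
        rw [LinearMap.mem_ker]
        funext σ
        exact (hker i).2 σ.1 σ.2⟩ : LinearMap.ker f)) := by
      apply LinearIndependent.of_comp
        ((Pool.Agent.L7h1.SR.chiPart p K H χ).subtype.comp (LinearMap.ker f).subtype)
      exact hx
    have h6 := h5.fintype_card_le_finrank
    rwa [Fintype.card_fin] at h6
  have h7 : Pool.Agent.L7h93.SR.regRank S χ hL = finrank ℂ_[p] (LinearMap.range f) := rfl
  omega

end Pool.Agent.Results.MP_fc6b1e_nt.HalfRank
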