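import Pool.Agent.L7h5.SL.Stmt2

/-!
# The `Σ`-Leopoldt conjecture with coordinates in a finite dimensional space: one number field decides for all CM
# fields, all CM types and all ray class characters

Let `p` be a prime and let `A ⊆ ℂ_p` be a finite dimensional vector space over the field of algebraic numbers of `ℂ_p`.
A datum consists of number fields `K ⊆ H`, `H/K` Galois, a faithful character `χ` of `Gal(H/K)` and a nonempty set `S` of
embeddings `K → ℂ_p` (for example a CM type). The datum FAILS for `A` if there is a nonzero `x` in the `χ`-part of
`ℂ_p ⊗ 𝓞_H^×` which has coordinates in `y A` for some `y ∈ ℂ_p` and is killed by the logarithms for all embeddings of `H`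
which extend an element of `S`. The `Σ`-Leopoldt statement is false if and only if the datum fails for some `A`.

**Theorem.** For every `A` there is ONE number field `F₀`, normal over `ℚ`, such that

(1) every `x ∈ ℂ_p ⊗ 𝓞_H^×` with coordinates in `y A` which is killed by the logarithm for ONE embedding of `H` is a sum
of tensors `(y a) ⊗ u` with `a ∈ A` and units `u` in `H ∩ F₀`;

(2) if no datum with `H ⊆ F₀` fails, then none fails at all: the subfields of ONE number field decide on all number
fields, as far as vectors with coordinates in the sets `y A` are concerned;

(3) if a datum fails, then `H = K (H ∩ F₀)`: the automorphisms of `H/K` which are trivial on `H ∩ F₀` are trivial;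

(4) `[H : K] ≤ [F₀ : ℚ]` if the datum fails: only characters of bounded order fail, for all `K` together;

(5) for every `K` there are only finitely many `H` for which some datum fails: all but finitely many ray class
characters of `K` do not fail, for all `S` at once;

(6) if the datum fails then `K ∩ F₀` has at least two infinite places; if `K` is a CM field with maximal real subfield
`F`, then `F ∩ F₀` is larger than `ℚ`;

(7) among the totally real fields `F` of all degrees which have no subfields except `ℚ` and `F` there are only finitely
many for which some datum fails with a CM field `K` with maximal real subfield `F`: for all the others nothing fails,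
for all `K`, all CM types and all ray class characters of `K`.

The starting result `CoordinateSpaces` (helper332) bounds `[F : ℚ]` times the number of independent vectors in terms of
`A`, for characters which separate the elements of `S`; here there is no condition on `χ`, and the degree of `F` is
arbitrary. The analogue for Leopoldt's conjecture is `OneFieldForEachSpace` of MP_5f2860_nt (helper551), whose proof is
adapted to `ℂ_p`.

Proof. The logarithms of a maximal independent system of algebraic units are independent over the algebraic numbers
(Brumer). By the `p`-adic hyperplane theorem (library `Pool.Agent.W254.PA`, `Pool.Agent.W332.SL6`) the relations between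
them with coefficients in `A` have finite rank over the algebraic numbers, so they involve only finitely many units of the
system; `F₀` is the normal field generated by these. Every relation between units with coefficients in `A` comes from units
in `F₀`; this is (1). An automorphism of `H` over `K` and `H ∩ F₀` fixes the vector `x` and multiplies it by `χ`; so it is
trivial, and `H = K (H ∩ F₀)`. Then `Gal(H/K) = Gal(H ∩ F₀/K ∩ F₀)`, the vector `x` belongs to the part of `H ∩ F₀` for
the corresponding character and is killed by the logarithms for all embeddings which extend a restriction of an element of
`S` to `K ∩ F₀`. If `K ∩ F₀` has only one infinite place then this part has dimension at most one and is defined over the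
algebraic numbers, and Brumer's theorem applies. If `K` is a CM field and `F ∩ F₀ = ℚ`, then `a + c a` and `a (c a)` are
rational for all `a ∈ K ∩ F₀`, and all embeddings of `K ∩ F₀` into `ℂ` agree up to complex conjugation.
-/

set_option autoImplicit false

namespace Pool.Agent.Results.MP_fc6b1e_nt.OneFieldDecides

open Pool.Agent.L7h5.SL

/-- **Main result.** -/
theorem result (p : ℕ) [Fact p.Prime] :
    (∀ D : Datum p, ¬ D.Holds ↔ ∃ A : Space p, A.Fin ∧ D.Fails A) ∧
    ∀ A : Space p, A.Fin → ∃ F₀ : Subfield (AlgebraicClosure ℚ), NormalNumberField F₀ ∧
      FieldOf A F₀ ∧ (∀ k : Subfield (AlgebraicClosure ℚ), (failing A k).Finite) ∧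
      (failingReal A).Finite := by
  refine ⟨?_, fun A hA => exists_fieldOf A hA⟩
  intro D
  exact holds_iff D

end Pool.Agent.Results.MP_fc6b1e_nt.OneFieldDecides
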